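import Pool.Agent.NH64.SeqDiscFin

/-!
# A lower bound for the discrepancy of all sequences in `[0,1)^s`, `s ≥ 2`

For every sequence in `[0,1)^s`, in particular for every Kronecker sequence `({n α})`,
`N D_N ≥ c (log N)^((s+1)/2) / (1 + log log N)^A` for infinitely many `N`, with constants `c > 0`
and `A` that depend only on `s`; among the `N ≤ m` there is one with
`N D_N ≥ c (log m)^((s+1)/2) / (1 + log log m)^A`, for every `m ≥ 3`.
-/

set_option autoImplicit false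

namespace Pool.Agent.Results.MP_0f5419_nt.SequencesHalfDim

/-- The number of `0 ≤ n < N` with `x n ∈ ∏ [a i, b i)`. -/
noncomputable def boxCount {s : ℕ} (x : ℕ → Fin s → ℝ) (N : ℕ) (a b : Fin s → ℝ) : ℕ :=
  Set.ncard {n : ℕ | n < N ∧ ∀ i, a i ≤ x n i ∧ x n i < b i}

/-- The (extreme) discrepancy `D_N` of the first `N` points of the sequence `x`: the supremum of
`|#{0 ≤ n < N : x n ∈ J} / N - vol J|` over all boxes `J = ∏ [a i, b i)` with
`0 ≤ a i < b i ≤ 1`. -/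
noncomputable def extremeDisc {s : ℕ} (x : ℕ → Fin s → ℝ) (N : ℕ) : ℝ :=
  sSup {r : ℝ | ∃ a b : Fin s → ℝ, (∀ i, 0 ≤ a i ∧ a i < b i ∧ b i ≤ 1) ∧
    r = |(boxCount x N a b : ℝ) / N - ∏ i, (b i - a i)|}

theorem result (s : ℕ) (hs : 2 ≤ s) : ∃ (A : ℕ) (c : ℝ), 0 < c ∧ ∀ x : ℕ → Fin s → ℝ,
    (∀ n i, 0 ≤ x n i ∧ x n i < 1) →
      (∀ m : ℕ, 3 ≤ m → ∃ N : ℕ, 1 ≤ N ∧ N ≤ m ∧
        c * ((Real.log m) ^ (((s : ℝ) + 1) / 2) / (1 + Real.log (Real.log m)) ^ A) ≤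
          N * extremeDisc x N) ∧
      {N : ℕ | c * ((Real.log N) ^ (((s : ℝ) + 1) / 2) / (1 + Real.log (Real.log N)) ^ A) ≤
        N * extremeDisc x N}.Infinite :=
  Pool.Agent.NH64.SeqDisc.final s hs

end Pool.Agent.Results.MP_0f5419_nt.SequencesHalfDim
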